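import Pool.Agent.Helper43.Fr.Goals

namespace Pool.Agent.Helper43.Fr.PkMASA

open scoped PowerSeries Polynomial
open Pool.Agent.Helper43.Fr

theorem th_coe {p : ℕ} [Fact p.Prime] (f : ℤ_[p][X]) :
    th (f : ℤ_[p]⟦X⟧) = ((thP f : ℤ_[p][X]) : ℤ_[p]⟦X⟧) := by
  simp only [th, thP, Derivation.smul_apply, smul_eq_mul, Polynomial.coe_mul, Polynomial.coe_X]
  congr 1
  exact PowerSeries.derivative_coe f

theorem nat_dvd_coe {p : ℕ} [Fact p.Prime] (f : ℤ_[p][X])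
    (h : (p : ℤ_[p]⟦X⟧) ∣ (f : ℤ_[p]⟦X⟧)) : (p : ℤ_[p][X]) ∣ f := by
  have h1 : (p : ℤ_[p][X]) = Polynomial.C (p : ℤ_[p]) := by simp
  rw [h1, Polynomial.C_dvd_iff_dvd_coeff]
  intro n
  obtain ⟨g, hg⟩ := h
  have h2 := congrArg (PowerSeries.coeff n) hg
  have h3 : (p : ℤ_[p]⟦X⟧) = PowerSeries.C (p : ℤ_[p]) := by simp
  rw [h3, PowerSeries.coeff_C_mul, Polynomial.coeff_coe] at h2
  exact ⟨_, h2⟩

theorem masa : G_KAP → G_MASA := by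
  intro hK p _ hp C T0 T1 hT
  obtain ⟨-, κ, hκ, z, hz⟩ := hK p hp C
  have hpp : p.Prime := Fact.out
  have hpodd : p % 2 = 1 := by
    rcases hpp.eq_two_or_odd with h | h
    · omega
    · exact h
  set h := (p - 1) / 2 with hh
  have hp2 : p = 2 * h + 1 := by omega
  let φ : ℤ_[p][X] →+* ℤ_[p]⟦X⟧ := Polynomial.coeToPowerSeries.ringHom
  have hφ : ∀ f : ℤ_[p][X], φ f = (f : ℤ_[p]⟦X⟧) := fun f => rfl
  -- the two evaluations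
  have key : ∀ (v X0 MM : ℤ_[p]⟦X⟧), v ^ 2 = (C.q : ℤ_[p]⟦X⟧) →
      (C.al : ℤ_[p]⟦X⟧) ^ 2 * X0 = (C.x0 : ℤ_[p]⟦X⟧) + (C.x1 : ℤ_[p]⟦X⟧) * v →
      (C.al : ℤ_[p]⟦X⟧) * MM = (C.c0 : ℤ_[p]⟦X⟧) + (C.c1 : ℤ_[p]⟦X⟧) * v →
      (T0 : ℤ_[p]⟦X⟧) + (T1 : ℤ_[p]⟦X⟧) * v =
        ((C.q : ℤ_[p]⟦X⟧) * (C.c2 : ℤ_[p]⟦X⟧)) ^ h * ((C.al : ℤ_[p]⟦X⟧) ^ (p - 1)) ^ 2 *
          (Polynomial.aeval X0 (F1 ℤ_[p] p) * (C.ψ * MM) ^ h) := by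
    intro v X0 MM hv hx hM
    have h1 := hT (ℤ_[p]⟦X⟧) φ v (by rw [hv, hφ])
    simp only [hφ] at h1
    rw [h1, ← hM, ← hx]
    have h2 : ∑ i ∈ Finset.range p, (aa i : ℤ_[p]⟦X⟧) * ((C.al : ℤ_[p]⟦X⟧) ^ 2 * X0) ^ i *
        (C.al : ℤ_[p]⟦X⟧) ^ (2 * (p - 1 - i)) =
        ((C.al : ℤ_[p]⟦X⟧) ^ (p - 1)) ^ 2 * Polynomial.aeval X0 (F1 ℤ_[p] p) := by
      rw [F1, map_sum, Finset.mul_sum]
      refine Finset.sum_congr rfl fun i hi => ?_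
      rw [Polynomial.aeval_monomial]
      have hi' : i ≤ p - 1 := by
        have := Finset.mem_range.mp hi
        omega
      have h3 : ((C.al : ℤ_[p]⟦X⟧) ^ (p - 1)) ^ 2
          = ((C.al : ℤ_[p]⟦X⟧) ^ 2) ^ i * (C.al : ℤ_[p]⟦X⟧) ^ (2 * (p - 1 - i)) := by
        rw [← pow_mul, ← pow_mul, ← pow_add]
        congr 1
        omega
      rw [h3, mul_pow]
      simp only [map_natCast]
      ring
    rw [h2]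
    have h4 : (C.w : ℤ_[p]⟦X⟧) ^ h * ((C.al : ℤ_[p]⟦X⟧) * MM) ^ h
        = ((C.q : ℤ_[p]⟦X⟧) * (C.c2 : ℤ_[p]⟦X⟧)) ^ h * (C.ψ * MM) ^ h := by
      rw [← mul_pow, ← mul_pow]
      congr 1
      linear_combination (-MM) * C.hψ
    linear_combination (((C.al : ℤ_[p]⟦X⟧) ^ (p - 1)) ^ 2 * Polynomial.aeval X0 (F1 ℤ_[p] p)) * h4
  set G : ℤ_[p]⟦X⟧ := ((C.q : ℤ_[p]⟦X⟧) * (C.c2 : ℤ_[p]⟦X⟧)) ^ h *
    ((C.al : ℤ_[p]⟦X⟧) ^ (p - 1)) ^ 2 with hG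
  have e1 : (T0 : ℤ_[p]⟦X⟧) + (T1 : ℤ_[p]⟦X⟧) * C.V = G * C.Xix :=
    key C.V C.x C.M C.hV C.hx C.hM
  have e2 : (T0 : ℤ_[p]⟦X⟧) + (T1 : ℤ_[p]⟦X⟧) * (-C.V) = G * C.Xiy :=
    key (-C.V) C.y C.M' (by rw [neg_sq]; exact C.hV) (by rw [C.hy]; ring) (by rw [C.hM']; ring)
  -- p ∣ T1
  have hVu : IsUnit C.V := by
    rw [PowerSeries.isUnit_iff_constantCoeff, C.hV0]
    exact isUnit_one
  have h2u : IsUnit (2 : ℤ_[p]⟦X⟧) := by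
    have : IsUnit (2 : ℤ_[p]) := by
      have h5 : ‖((2 : ℕ) : ℤ_[p])‖ = 1 := by
        rw [PadicInt.norm_natCast_eq_one_iff]
        refine (Nat.coprime_primes hpp Nat.prime_two).mpr ?_
        omega
      rw [PadicInt.isUnit_iff]
      exact_mod_cast h5
    rw [PowerSeries.isUnit_iff_constantCoeff, map_ofNat]
    exact this
  have e3 : 2 * (T1 : ℤ_[p]⟦X⟧) * C.V = (p : ℤ_[p]⟦X⟧) * (G * κ * C.Xix) := by
    linear_combination e1 - e2 + G * hκ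
  have hT1 : (p : ℤ_[p]⟦X⟧) ∣ (T1 : ℤ_[p]⟦X⟧) := by
    obtain ⟨u, hu⟩ := (h2u.mul hVu)
    refine (Units.dvd_mul_right (u := u)).mp ⟨G * κ * C.Xix, ?_⟩
    rw [hu]
    linear_combination e3
  obtain ⟨k, hk⟩ := nat_dvd_coe T1 hT1
  refine ⟨k, hk, ?_⟩
  apply nat_dvd_coe
  have hkS : (T1 : ℤ_[p]⟦X⟧) = (p : ℤ_[p]⟦X⟧) * (k : ℤ_[p]⟦X⟧) := by
    rw [hk, Polynomial.coe_mul]
    congr 1
    exact map_natCast φ p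
  have hp0 : (p : ℤ_[p]⟦X⟧) ≠ 0 := by
    have : (p : ℤ_[p]⟦X⟧) = PowerSeries.C (p : ℤ_[p]) := by simp
    rw [this]
    intro h0
    have h6 : (p : ℤ_[p]) = 0 := by
      have := congrArg PowerSeries.constantCoeff h0
      simpa using this
    exact hpp.ne_zero (by exact_mod_cast h6)
  have e4 : 2 * (k : ℤ_[p]⟦X⟧) * C.V = κ * (T0 : ℤ_[p]⟦X⟧)
      + (p : ℤ_[p]⟦X⟧) * (κ * (k : ℤ_[p]⟦X⟧) * C.V) := by
    apply mul_left_cancel₀ hp0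
    have h7 : (T0 : ℤ_[p]⟦X⟧) + (p : ℤ_[p]⟦X⟧) * (k : ℤ_[p]⟦X⟧) * C.V = G * C.Xix := by
      rw [← hkS]; exact e1
    rw [hkS] at e3
    linear_combination e3 - (p : ℤ_[p]⟦X⟧) * κ * h7
  -- apply th
  have e5 : 2 * th (k : ℤ_[p]⟦X⟧) * C.V + 2 * (k : ℤ_[p]⟦X⟧) * th C.V
      = th κ * (T0 : ℤ_[p]⟦X⟧) + κ * th (T0 : ℤ_[p]⟦X⟧)
        + (p : ℤ_[p]⟦X⟧) * th (κ * (k : ℤ_[p]⟦X⟧) * C.V) := by
    have h8 := congrArg th e4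
    have h9 : th ((2 : ℤ_[p]⟦X⟧)) = 0 := by
      have := (th (R := ℤ_[p])).map_natCast 2
      exact_mod_cast this
    have h10 : th ((p : ℤ_[p]⟦X⟧)) = 0 := (th (R := ℤ_[p])).map_natCast p
    have h11 : th (2 * (k : ℤ_[p]⟦X⟧) * C.V) = 2 * th (k : ℤ_[p]⟦X⟧) * C.V
        + 2 * (k : ℤ_[p]⟦X⟧) * th C.V := by
      rw [Derivation.leibniz, Derivation.leibniz, h9]
      simp only [smul_eq_mul]
      ring
    rw [h11, map_add, Derivation.leibniz, Derivation.leibniz (th (R := ℤ_[p])) (p : ℤ_[p]⟦X⟧),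
      h10] at h8
    simp only [smul_eq_mul] at h8
    rw [h8]
    ring
  have e6 : 2 * C.V * th C.V = th (C.q : ℤ_[p]⟦X⟧) := by
    rw [← C.hV, pow_two, Derivation.leibniz]
    simp only [smul_eq_mul]
    ring
  -- powers
  have hlam : ((C.al : ℤ_[p]⟦X⟧)) ^ p * (C.q : ℤ_[p]⟦X⟧) ^ h * (C.V * C.lam ^ p)
      = (C.ln : ℤ_[p]⟦X⟧) ^ p := by
    rw [← C.hln, mul_pow, mul_pow]
    have : C.V ^ p = C.V * (C.q : ℤ_[p]⟦X⟧) ^ h := by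
      rw [← C.hV, ← pow_mul, ← pow_succ']
      congr 1
    rw [this]
    ring
  have e7 : (C.al : ℤ_[p]⟦X⟧) ^ p * (G * C.V * C.lam ^ p) = (C.c2 : ℤ_[p]⟦X⟧) ^ h *
      ((C.al : ℤ_[p]⟦X⟧) ^ (p - 1)) ^ 2 * (C.ln : ℤ_[p]⟦X⟧) ^ p := by
    rw [← hlam, hG, mul_pow]
    ring
  have e8 : (C.al : ℤ_[p]⟦X⟧) ^ p = (C.al : ℤ_[p]⟦X⟧) * (C.al : ℤ_[p]⟦X⟧) ^ (p - 1) := by
    rw [← pow_succ']
    congr 1
    omega
  have e9 : (T0 : ℤ_[p]⟦X⟧) = G * C.Xix - (p : ℤ_[p]⟦X⟧) * (k : ℤ_[p]⟦X⟧) * C.V := by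
    rw [hkS] at e1
    linear_combination e1
  have e10 := C.hln
  have e11 := C.hV
  push_cast
  rw [← th_coe, ← th_coe, ← th_coe]
  have e12 : ((2 : ℤ_[p][X]) : ℤ_[p]⟦X⟧) = 2 := map_ofNat φ 2
  rw [e12]
  rw [pow_mul' (C.al : ℤ_[p]⟦X⟧) 2 (p - 1)]
  rw [e8] at e7 ⊢
  generalize (C.al : ℤ_[p]⟦X⟧) ^ (p - 1) = a at *
  generalize (C.lam) ^ p = lamp at *
  generalize (C.ln : ℤ_[p]⟦X⟧) ^ p = lnp at *
  generalize (C.c2 : ℤ_[p]⟦X⟧) ^ h = c2h at *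
  generalize th (T0 : ℤ_[p]⟦X⟧) = t0' at *
  generalize th (k : ℤ_[p]⟦X⟧) = k' at *
  generalize th (C.q : ℤ_[p]⟦X⟧) = q' at *
  generalize th κ = κ' at *
  generalize th (κ * (k : ℤ_[p]⟦X⟧) * C.V) = D at *
  generalize th C.V = V' at *
  generalize (k : ℤ_[p]⟦X⟧) = kk at *
  generalize (T0 : ℤ_[p]⟦X⟧) = t at *
  generalize (C.al : ℤ_[p]⟦X⟧) = al at *
  generalize (C.ln : ℤ_[p]⟦X⟧) = ln at *
  generalize (C.q : ℤ_[p]⟦X⟧) = q at *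
  refine ⟨al * a * (q * κ * kk * t0' - D * C.V * t) - a * ln * t * kk * C.V
    - al * a * C.V * t * G * z + al * a * q * κ' * t * kk, ?_⟩
  linear_combination (-al * a * C.V * t) * e5 + (2 * al * a * t * k' - 2 * al * a * kk * t0'
    + p * al * a * t0' * κ * kk + p * al * a * κ' * t * kk) * e11 + (al * a * t * kk) * e6
    + (al * a * C.V * t0') * e4 + (-al * a * C.V * κ' * t + a * t * ln) * e9
    + (-al * a * C.V * t * G) * hz + (-a * t * G * C.Xix) * e10 + t * e7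

end Pool.Agent.Helper43.Fr.PkMASA
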